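import Pool.Agent.Q120.LG.Main
import Pool.Agent.Q120.SI.Entb
import Pool.Agent.Q38.SI.CEL
import Pool.Agent.Q252.SI.DET
import Pool.Agent.Q151.SI.Cnt
import Pool.Agent.Q151.SI.Upb
import Pool.Agent.Q151.SI.Detb
import Pool.Agent.Q151.SI.Mixb
import Pool.Agent.Q151.SI.Tlt
import Pool.Agent.Q299.RZ.Tail
import Pool.Agent.Q299.RZ.Kl
import Pool.Agent.Q184.LG.GUP
import Pool.Agent.Q184.LG.GLO
import Pool.Agent.Q184.LG.GHA
import Pool.Agent.Q184.LG.GFO

/-!
# Large gaps, for all random sets near Cramér's model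

`A` is any random set of integers, `relEntropy μ A (block k)` the relative entropy (nats) of the law of `A ∩ [2 ^ k, 2 ^ (k + 1))` with
respect to Cramér's model. `AllLevel δ E`: all random sets with relative entropies at most `2 ^ ((δ + o(1)) k)` almost surely have the
property `E`; `SomeLevel δ E`: some such random set has. `NB S c k` is the number of the elements `a` of `S` in `[2 ^ k, 2 ^ (k + 1))` with
no element of `S` in `(a, a + c log ^ 2 a]`.
-/

set_option autoImplicit false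

namespace Pool.Agent.Results.MP_f9960f_nt.LargeGapsAtAllLevels

open Filter Pool.Agent.Q120.LG

theorem jobs : LJobs where
  si := {
    tail := Q299.RZ.t_TAIL
    kl := Q299.RZ.t_KL
    entb := Pool.Agent.Q120.SI.entb
    cel := Pool.Agent.Q38.SI.t_CEL
    det := Pool.Agent.Q252.SI.t_DET
    cnt := Pool.Agent.Q151.SI.t_CNT
    upb := Pool.Agent.Q151.SI.t_UPB
    detb := Pool.Agent.Q151.SI.t_DETB
    mixb := Pool.Agent.Q151.SI.t_MIXB
    tlt := Pool.Agent.Q151.SI.t_TLT }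
  gup := Pool.Agent.Q184.LG.t_GUP
  glo := Pool.Agent.Q184.LG.t_GLO
  gha := Pool.Agent.Q184.LG.t_GHA
  gfo := Pool.Agent.Q184.LG.t_GFO

/-- `0 ≤ δ < 1`. For `c > 0`: the number of gaps `> c log ^ 2` in the blocks is `2 ^ ((1 - c + o(1)) k)` for all random sets of level `δ`
iff `c < 1 - δ`; so are the statements that there are infinitely many of them, and that the largest gap up to `X` is larger
than `c log ^ 2 X` for all large `X`; their number is at most `2 ^ ((θ + o(1)) k)` iff `max (1 - c) δ ≤ θ`. Some random set of level `δ`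
has only finitely many gaps `> (1 - δ) log ^ 2`, and some has `2 ^ ((δ - o(1)) k)` gaps `> C log ^ 2` for every `C`. -/
theorem result (δ : ℝ) (hδ : 0 ≤ δ) (hδ1 : δ < 1) :
    (∀ c : ℝ, 0 < c →
      (AllLevel δ (Growth c) ↔ c < 1 - δ) ∧ (AllLevel δ (InfGaps c) ↔ c < 1 - δ) ∧ (AllLevel δ (LowG c) ↔ c < 1 - δ) ∧
      ∀ θ : ℝ, 0 ≤ θ → (AllLevel δ (Upper c θ) ↔ max (1 - c) δ ≤ θ)) ∧
    SomeLevel δ (fun S => (∀ᶠ a : ℕ in atTop, a ∈ S → ∃ n ∈ S, a < n ∧ (n : ℝ) ≤ a + (1 - δ) * Real.log a ^ 2) ∧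
      ∀ c : ℝ, 0 < c → c < 1 - δ → Growth c S) ∧
    (0 < δ → SomeLevel δ (fun S => ∀ C ε : ℝ, 0 < ε → ∀ᶠ k : ℕ in atTop, (2 : ℝ) ^ ((δ - ε) * k) ≤ NB S C k)) :=
  main jobs δ hδ hδ1

end Pool.Agent.Results.MP_f9960f_nt.LargeGapsAtAllLevels
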