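import Pool.Agent.Q236.EV.Sys

set_option autoImplicit false

/-!
# Cramér's law for the largest gaps, for almost primes and for polynomials, uniformly

Let `F` be a system of `k` irreducible nonconstant polynomials of degrees at most `D` with integral
coefficients of absolute value at most `X ^ E`, without fixed prime divisor, such that no `f_i` is `± f_j` shifted by
`1 ≤ t ≤ X ^ η`; for instance `F = (x)`. Call `m` good if no prime `p ≤ X ^ (1 / r)` divides any of the `f_j (m)`: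
then the `f_j (m)` have a bounded number of prime factors, if `m ≤ X`. Let `V`, the density of the good numbers, be the
product of `1 - ω_F(p) / p` over the primes `p ≤ X ^ (1 / r)`; it has the order `1 / log ^ k X` for fixed `F`, and we
assume `∏_{p ≤ X} (1 - ω_F(p) / p) ≤ C / log X`.

In a random set of density `V` (Cramér's model) the largest one of `M` gaps is `(log M + O(1)) / V`, and the number of the
gaps larger than `(log M + u) / V` among `M` gaps has nearly the Poisson law of mean `e ^ (-u)`. This is proved here for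
the gaps between good numbers in the windows `(n, n + M / V]`, `n` in `(Z, Z + Y]`, `Y ≥ X ^ θ`: the frequencies of the
`n` with a given number of gaps larger than `(log M + u) / V` are those of the Poisson law, up to `ε`, if `M ≥ M₀ (ε)` is
bounded, `r ≥ r₀` and `X` is large; uniformly in ALL systems. In particular the largest gap in the window has the law
of Gumbel: it is at most `(log M + u) / V` with the frequency `exp (- e ^ (-u))`, up to `ε`.

Method. The windows are divided in cells of length `κ / V`. All void probabilities of unions of cells are found from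
binomial moments (conditional Poisson law of `Pool.Agent.Q236.CP`, fundamental lemma, averages of singular
series over regular sets). They give all probabilities of patterns of hit and void cells, hence the binomial
moments of the number of the cells followed by long voids.
-/

namespace Pool.Agent.Results.MP_f9960f_nt.LargestGapLaw

open Finset Filter Polynomial

/-- The number `ω_F(p)` of the residues `n` modulo `p` for which `p` divides the product of the `f_j (n)`. -/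
def ω {k : ℕ} (F : Fin k → ℤ[X]) (p : ℕ) : ℕ :=
  ((Finset.range p).filter (fun n : ℕ => (p : ℤ) ∣ ∏ i, (F i).eval (n : ℤ))).card

/-- The product of `1 - ω_F(p) / p` over the primes `p ≤ y`. -/
noncomputable def W {k : ℕ} (y : ℕ) (F : Fin k → ℤ[X]) : ℝ :=
  ∏ p ∈ (Finset.Icc 1 y).filter Nat.Prime, (1 - (ω F p : ℝ) / p)

/-- The density of the good numbers, the product over the primes `p ≤ X ^ (1 / r)`. -/
noncomputable def V {k : ℕ} (X r : ℕ) (F : Fin k → ℤ[X]) : ℝ := W ⌊(X : ℝ) ^ (1 / (r : ℝ))⌋₊ F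

/-- A system of irreducible nonconstant polynomials of degrees at most `D`, with coefficients at most `H`,
without fixed prime divisor, and such that no `f_i` is `± f_j` shifted by `1 ≤ t ≤ U`. -/
structure System {k : ℕ} (D : ℕ) (H U : ℝ) (F : Fin k → ℤ[X]) : Prop where
  irr : ∀ i, Irreducible (F i)
  deg : ∀ i, (F i).natDegree ≠ 0
  degD : ∀ i, (F i).natDegree ≤ D
  height : ∀ i n, |(((F i).coeff n : ℤ) : ℝ)| ≤ H
  adm : ∀ p : ℕ, p.Prime → ω F p < p
  shift : ∀ i j, ∀ t : ℕ, 1 ≤ t → (t : ℝ) ≤ U →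
    F i ≠ (F j).comp (X + C (t : ℤ)) ∧ F i ≠ -(F j).comp (X + C (t : ℤ))

/-- No prime `p ≤ X ^ (1 / r)` divides any of the `f_j (m)`. -/
def Good {k : ℕ} (X : ℕ) (F : Fin k → ℤ[X]) (r m : ℕ) : Prop :=
  ∀ p : ℕ, p.Prime → (p : ℝ) ≤ (X : ℝ) ^ (1 / (r : ℝ)) → ∀ i, ¬ (p : ℤ) ∣ (F i).eval (m : ℤ)

open Classical in
/-- The number of the good `g` in `(n, n + T]` such that no integer of `(g, g + L]` is good: the number of the gaps
between consecutive good numbers which begin in `(n, n + T]` and are larger than `L`. -/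
noncomputable def large {k : ℕ} (X : ℕ) (F : Fin k → ℤ[X]) (r T L n : ℕ) : ℕ :=
  ((Finset.Ioc n (n + T)).filter (fun g => Good X F r g ∧ ∀ g' ∈ Finset.Ioc g (g + L), ¬ Good X F r g')).card

/-- The number of the `n` in `(Z, Z + Y]` for which `large X F r T L n` belongs to `A`. -/
noncomputable def G {k : ℕ} (X : ℕ) (F : Fin k → ℤ[X]) (r T L Z Y : ℕ) (A : Finset ℕ) : ℕ :=
  ((Finset.Ioc Z (Z + Y)).filter (fun n => large X F r T L n ∈ A)).card

open Pool.Agent.W123.RU Pool.Agent.H373R2.T7 Pool.Agent.TH464.PO Pool.Agent.W123.RP Pool.Agent.Q236.GW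
open Pool.Agent.Y879.GL Pool.Agent.Q236.EV
open Pool.Agent.W123.RU.Poly (Q)

lemma Q_iff {k : ℕ} (F : Fin k → ℤ[X]) (p m : ℕ) (hp : p.Prime) :
    Q F p m ↔ (p : ℤ) ∣ ∏ i, (F i).eval (m : ℤ) := by
  have hpi : Prime (p : ℤ) := Nat.prime_iff_prime_int.1 hp
  unfold Q
  rw [hpi.dvd_finsetProd_iff]
  exact ⟨fun ⟨i, hi⟩ => ⟨i, Finset.mem_univ i, hi⟩, fun ⟨i, _, hi⟩ => ⟨i, hi⟩⟩

lemma nu_eq {k : ℕ} (F : Fin k → ℤ[X]) (p : ℕ) (hp : p.Prime) : nuB (Q F) p = ω F p := by
  unfold nuB ω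
  exact card_iff _ _ (fun m _ => Q_iff F p m hp)

lemma W_eq {k : ℕ} (y : ℕ) (F : Fin k → ℤ[X]) : Vq (Q F) y = W y F := by
  unfold Vq W
  have h1 : pz y = (Finset.Icc 1 y).filter Nat.Prime := by
    ext p
    rw [mem_pz, Finset.mem_filter, Finset.mem_Icc]
    exact ⟨fun h => ⟨⟨h.2.one_lt.le, h.1⟩, h.2⟩, fun h => ⟨h.1.2, h.2⟩⟩
  rw [h1]
  apply Finset.prod_congr rfl
  intro p hp
  rw [nu_eq F p (Finset.mem_filter.1 hp).2]

lemma good_iff {k : ℕ} (X : ℕ) (F : Fin k → ℤ[X]) (r m : ℕ) :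
    Sf (Q F) ⌊(X : ℝ) ^ (1 / (r : ℝ))⌋₊ m ↔ Good X F r m := by
  have h0 : (0 : ℝ) ≤ (X : ℝ) ^ (1 / (r : ℝ)) := by positivity
  constructor
  · intro h q hq hqn i hd
    exact h q (mem_pz.2 ⟨Nat.le_floor hqn, hq⟩) ⟨i, hd⟩
  · rintro h q hq ⟨i, hi⟩
    exact h q (mem_pz.1 hq).2 (mem_pz' h0 hq) i hi

lemma toUS {k D : ℕ} {H U : ℝ} {F : Fin k → ℤ[X]} (h : System D H U F) : US k D H U F where
  irr := h.irr
  deg := h.deg
  degD := h.degD
  hgt := h.height
  adm p hp := by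
    obtain ⟨m, _, hm⟩ := nu_exists (Q F) p (by rw [nu_eq F p hp]; exact h.adm p hp)
    exact ⟨m, fun i hi => hm ⟨i, hi⟩⟩
  tr i j t ht htU hass := by
    rcases assoc_cases hass with h1 | h1
    · exact (h.shift i j t ht htU).1 h1
    · exact (h.shift i j t ht htU).2 h1

lemma few (X r K m : ℕ) (hr : 1 ≤ r) (hX : 2 ^ r ≤ X) (hm : 0 < m) (hmX : m ≤ X ^ K)
    (h : ∀ p : ℕ, p.Prime → p ∣ m → (X : ℝ) ^ (1 / (r : ℝ)) < (p : ℝ)) :
    m.primeFactorsList.length ≤ K * r := by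
  have hr0 : (r : ℝ) ≠ 0 := by exact_mod_cast (by omega : r ≠ 0)
  have hX1 : (1 : ℝ) ≤ X := by
    have : 1 ≤ 2 ^ r := Nat.one_le_two_pow
    exact_mod_cast this.trans hX
  have hz1 : 1 ≤ (X : ℝ) ^ (1 / (r : ℝ)) := Real.one_le_rpow hX1 (by positivity)
  apply length_le m (K * r) (by omega) _ h _ hz1
  have e : ((X : ℝ) ^ (1 / (r : ℝ))) ^ r = X := by
    rw [← Real.rpow_natCast, ← Real.rpow_mul (by linarith), one_div, inv_mul_cancel₀ hr0, Real.rpow_one]
  have hmX' : (m : ℝ) ≤ (X : ℝ) ^ K := by exact_mod_cast hmX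
  rw [pow_succ, mul_comm K r, pow_mul, e]
  have h0 : (0 : ℝ) ≤ (X : ℝ) ^ K := by positivity
  nlinarith

/-- **Cramér's law for the largest gaps, for almost primes and for polynomials, uniformly.** -/
theorem result (k D : ℕ) :
    (1 ≤ k → ∀ F : Fin k → ℤ[X], (∀ i, Irreducible (F i)) → (∀ i, 0 < (F i).natDegree) →
      (∀ i, 0 < (F i).leadingCoeff) → Function.Injective F → (∀ p : ℕ, p.Prime → ω F p < p) →
      ∃ c C : ℝ, 0 < c ∧ 0 < C ∧ ∀ y : ℕ, 3 ≤ y → c / Real.log y ^ k ≤ W y F ∧ W y F ≤ C / Real.log y ^ k) ∧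
    (∀ (X r K : ℕ) (F : Fin k → ℤ[X]) (m : ℕ), 1 ≤ r → 2 ^ r ≤ X → Good X F r m →
      ∀ i, 0 < ((F i).eval (m : ℤ)).natAbs → ((F i).eval (m : ℤ)).natAbs ≤ X ^ K →
        ((F i).eval (m : ℤ)).natAbs.primeFactorsList.length ≤ K * r) ∧
    ∀ E η θ : ℝ, 0 < E → 0 < η → 0 < θ → ∀ U ε : ℝ, 0 ≤ U → 0 < ε → ∃ M₀ : ℝ, 1 ≤ M₀ ∧ ∀ M₁ : ℝ,
      ∃ r₀ : ℕ, 2 ≤ r₀ ∧ ∀ r : ℕ, r₀ ≤ r → ∀ C : ℝ, 0 < C → ∀ᶠ X : ℕ in atTop, ∀ F : Fin k → ℤ[X],
        System D ((X : ℝ) ^ E) ((X : ℝ) ^ η) F → W X F ≤ C / Real.log X →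
        ∀ Z Y : ℕ, (X : ℝ) ^ θ ≤ Y → ∀ M u : ℝ, M₀ ≤ M → M ≤ M₁ → |u| ≤ U → ∀ A : Finset ℕ,
          |(G X F r ⌊M / V X r F⌋₊ ⌊(Real.log M + u) / V X r F⌋₊ Z Y A : ℝ) -
            Y * ∑ j ∈ A, Real.exp (-Real.exp (-u)) * Real.exp (-u) ^ j / (j.factorial : ℝ)| ≤ ε * Y := by
  refine ⟨?_, ?_, ?_⟩
  · intro hk F hirr hdeg hlead hinj hadm
    have hsys : Pool.Agent.W123.RU.Poly.Sys F := ⟨hirr, hdeg, hlead, hinj, fun p hp => by
      obtain ⟨m, _, hm⟩ := nu_exists (Q F) p (by rw [nu_eq F p hp]; exact hadm p hp)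
      exact ⟨m, fun i hi => hm ⟨i, hi⟩⟩⟩
    have : Nonempty (Fin k) := ⟨⟨0, by omega⟩⟩
    obtain ⟨v, Cv, hv, hCv, hV⟩ := Pool.Agent.W123.RU.Poly.V_bounds F hsys
    refine ⟨v, Cv, hv, hCv, fun X hX => ?_⟩
    have h1 := hV X hX
    rw [Fintype.card_fin, W_eq] at h1
    exact h1
  · intro X r K F m hr hX hG i h1 h2
    apply few X r K _ hr hX h1 h2
    intro p hp hd
    by_contra hcon
    rw [not_lt] at hcon
    exact hG p hp hcon i (Int.natCast_dvd.2 hd)
  · intro E η θ hE hη hθ U ε hU hε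
    obtain ⟨M₀, hM₀, h⟩ := ev_sys k D E η θ hE hη hθ U ε hU hε
    refine ⟨M₀, hM₀, fun M₁ => ?_⟩
    obtain ⟨r₀, hr₀, h⟩ := h M₁
    refine ⟨r₀, hr₀, ?_⟩
    intro r hr C hC
    filter_upwards [h r hr C hC] with X hX
    intro F hF hV Z Y hY M u hM hM1 hu A
    rw [← W_eq] at hV
    unfold V
    rw [← W_eq]
    have hmain := hX F (toUS hF) hV Z Y hY M u hM hM1 hu A
    have e2 : Sf (Q F) ⌊(X : ℝ) ^ (1 / (r : ℝ))⌋₊ = Good X F r := by
      funext m
      exact propext (good_iff X F r m)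
    unfold NL at hmain
    rw [e2] at hmain
    exact hmain

end Pool.Agent.Results.MP_f9960f_nt.LargestGapLaw
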