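import Pool.Agent.Q26.ME.DV
import Pool.Agent.Q150.RC.TUP
import Pool.Agent.Q151.LW.Mon
import Pool.Agent.Q177.RC.CRE
import Pool.Agent.Q177.RC.MLO
import Pool.Agent.Q184.ME.EVT
import Pool.Agent.Q198.RC.ASL
import Pool.Agent.Q223.RC.ASY
import Pool.Agent.Q224.ME.ENM
import Pool.Agent.Q224.ME.KLB
import Pool.Agent.Q227.RC.CMP
import Pool.Agent.Q227.RC.LOX
import Pool.Agent.Q227.RC.SEQ
import Pool.Agent.Q227.RC.TRC
import Pool.Agent.Q227.RC.UPR
import Pool.Agent.Q237.RC.CHR
import Pool.Agent.Q237.RC.ELE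
import Pool.Agent.Q237.RC.LOWP
import Pool.Agent.Q241.RC.ASU
import Pool.Agent.Q285.ME.Constr
import Pool.Agent.Q299.RC.ABL
import Pool.Agent.Q299.RC.ABU
import Pool.Agent.Q299.RC.SMG
import Pool.Agent.Q299.RC.SUP

/-!
# The number of record gaps and Cramér's conjecture, for all random sets near the model

`IsRec S n`: `n ∈ S`, and the distance of `n` to the preceding element of `S` is larger than all earlier distances of consecutive elements; `rc S x`
is the number of these `n < x` (the number of the record gaps, i.e. of the maximal gaps). `mx S x` is the length of the longest run of consecutive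
integers below `x` outside `S`. The model (`Mod κ c p`): `n` is in the set with probability `p n`, independently; `p` is nonincreasing, `0 < p n < 1`,
`p n * (log n) ^ κ → c` (Cramér's model: `κ = c = 1`). `A` is ANY random set of integers, `relEnt p μ A (range x)` the relative entropy (nats) of the
law of `A ∩ [0, x)` with respect to the model; `RCls p δ μ A`: it is at most `(δ + o(1)) log x`. `hK κ u = u log (u / (κ + 1)) - u + κ + 1`.
-/

set_option autoImplicit false

namespace Pool.Agent.Results.MP_f9960f_nt.RecordGapsLaw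

open Finset MeasureTheory Filter Pool.Agent.Q120.ET Pool.Agent.Q120.ME Pool.Agent.Q120.LW Pool.Agent.Q120.RC
open scoped Topology

theorem rc_iff (S : Set ℕ) (L : ℝ) : Tendsto (fun x : ℕ => (rc S x : ℝ) / Real.log x) atTop (𝓝 L) ↔
    Tendsto (fun x : ℕ => (recS S x : ℝ) / Real.log x) atTop (𝓝 L) := by
  obtain ⟨C, hC⟩ := Q227.RC.t_CMP S
  have hl : Tendsto (fun x : ℕ => Real.log (x : ℝ)) atTop atTop := Real.tendsto_log_atTop.comp tendsto_natCast_atTop_atTop
  have h0 : Tendsto (fun x : ℕ => ((rc S x : ℝ) - recS S x) / Real.log x) atTop (𝓝 0) := by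
    have h1 : Tendsto (fun x : ℕ => C / Real.log (x : ℝ)) atTop (𝓝 0) := tendsto_const_nhds.div_atTop hl
    refine squeeze_zero_norm' ?_ h1
    filter_upwards [hl.eventually_gt_atTop 0] with x hx
    rw [Real.norm_eq_abs, abs_div, abs_of_pos hx]
    exact div_le_div_of_nonneg_right (hC x) hx.le
  constructor
  · intro h
    have h2 := h.sub h0
    rw [sub_zero] at h2
    refine h2.congr (fun x => ?_)
    ring
  · intro h
    have h2 := h.add h0
    rw [add_zero] at h2
    refine h2.congr (fun x => ?_)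
    ring

/-- (1) For nondecreasing `d ≥ 0` these are equivalent: `∑ d n / (n log² n) < ∞`; `rc A x ~ (κ + 1) log x` almost surely for ALL random sets `A` with
`relEnt ≤ d x` for large `x`; `mx A x ~ (log x) ^ (κ + 1) / c` almost surely for ALL these `A`.
(2) A probability measure `ν` on the line is the law of `lim rc A x / log x` for some random set `A` of class `δ` for which this limit exists almost
surely iff `ν` lives on `[0, ∞)` and `∫ (u log (u / (κ + 1)) - u + κ + 1) dν(u) ≤ δ`. -/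
theorem result : ∀ (κ c : ℝ) (p : ℕ → ℝ), 0 < κ → 0 < c → Mod κ c p →
    (∀ d : ℕ → ℝ, Monotone d → (∀ n, 0 ≤ d n) → List.TFAE [
      Summable (fun n : ℕ => d n / (n * Real.log n ^ 2)),
      ∀ (Ω : Type) [MeasurableSpace Ω] (μ : Measure Ω) [IsProbabilityMeasure μ] (A : Ω → Set ℕ), IsRandomSet A →
        (∀ᶠ x : ℕ in atTop, relEnt p μ A (range x) ≤ d x) →
        ∀ᵐ ω ∂μ, Tendsto (fun x : ℕ => (rc (A ω) x : ℝ) / Real.log x) atTop (𝓝 (κ + 1)),
      ∀ (Ω : Type) [MeasurableSpace Ω] (μ : Measure Ω) [IsProbabilityMeasure μ] (A : Ω → Set ℕ), IsRandomSet A →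
        (∀ᶠ x : ℕ in atTop, relEnt p μ A (range x) ≤ d x) →
        ∀ᵐ ω ∂μ, Tendsto (fun x : ℕ => (mx (A ω) x : ℝ) / (Real.log x ^ (κ + 1) / c)) atTop (𝓝 1)]) ∧
    ∀ δ : ℝ, 0 ≤ δ → ∀ ν : Measure ℝ, IsProbabilityMeasure ν →
      ((∃ (Ω : Type) (_ : MeasurableSpace Ω) (μ : Measure Ω) (_ : IsProbabilityMeasure μ) (A : Ω → Set ℕ) (L : Ω → ℝ),
        RCls p δ μ A ∧ Measurable L ∧ μ.map L = ν ∧
          ∀ᵐ ω ∂μ, Tendsto (fun x : ℕ => (rc (A ω) x : ℝ) / Real.log x) atTop (𝓝 (L ω))) ↔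
      ν (Set.Iio 0) = 0 ∧ ∫⁻ u, ENNReal.ofReal (u * Real.log (u / (κ + 1)) - u + (κ + 1)) ∂ν ≤ ENNReal.ofReal δ) := by
  intro κ c p hκ hc hp
  have hDV := Q26.ME.t_DV
  have hEVT := Q184.ME.t_EVT hDV
  have hMLO := Q177.RC.t_MLO hEVT Q237.RC.t_LOWP
  have hCHR := Q237.RC.t_CHR Q299.RC.t_SUP Q299.RC.t_ABU Q299.RC.t_ABL Q223.RC.t_ASY
  have hASU := Q241.RC.t_ASU hEVT hCHR hMLO
  have hASL := Q198.RC.t_ASL Q285.ME.t_CON Q224.ME.t_ENM
  have hUPR := Q227.RC.t_UPR hDV Q299.RC.t_SUP Q299.RC.t_ABU Q299.RC.t_ABL Q223.RC.t_ASY Q237.RC.t_ELE hMLO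
  have hTUP := Q150.RC.t_TUP
  have hTRC := Q227.RC.t_TRC Q299.RC.t_SUP Q177.RC.t_CRE Q299.RC.t_ABU Q299.RC.t_ABL Q223.RC.t_ASY hMLO hTUP Q224.ME.t_KLB
  have hLOX := Q227.RC.t_LOX Q227.RC.t_SEQ Q177.RC.t_CRE Q299.RC.t_ABU Q223.RC.t_ASY hTRC Q224.ME.t_KLB Q151.LW.t_MIX
  refine ⟨?_, ?_⟩
  · intro d hd hd0
    tfae_have 1 → 2 := by
      intro h Ω _ μ _ A hA hD
      filter_upwards [hASU κ c p d hκ hc hp hd hd0 h Ω μ A hA hD] with ω hω
      exact (rc_iff _ _).2 hω.1
    tfae_have 1 → 3 := by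
      intro h Ω _ μ _ A hA hD
      filter_upwards [hASU κ c p d hκ hc hp hd hd0 h Ω μ A hA hD] with ω hω
      exact hω.2
    tfae_have 2 → 1 := by
      intro h
      by_contra hns
      obtain ⟨Ω, m, μ, hμ, A, hA, hD, hlim⟩ := hASL κ c p d hκ hc hp hd hd0 hns
      have h1 := h Ω μ A hA hD
      have h2 : ∀ᵐ ω ∂μ, False := by
        filter_upwards [h1, hlim] with ω a b
        exact b.1 ((rc_iff _ _).1 a)
      rw [eventually_false_iff_eq_bot, ae_eq_bot] at h2
      exact absurd h2 (IsProbabilityMeasure.ne_zero μ)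
    tfae_have 3 → 1 := by
      intro h
      by_contra hns
      obtain ⟨Ω, m, μ, hμ, A, hA, hD, hlim⟩ := hASL κ c p d hκ hc hp hd hd0 hns
      have h1 := h Ω μ A hA hD
      have h2 : ∀ᵐ ω ∂μ, False := by
        filter_upwards [h1, hlim] with ω a b
        exact b.2 a
      rw [eventually_false_iff_eq_bot, ae_eq_bot] at h2
      exact absurd h2 (IsProbabilityMeasure.ne_zero μ)
    tfae_finish
  · intro δ hδ ν hν
    constructor
    · rintro ⟨Ω, m, μ, hμ, A, L, hA, hL, hmap, hlim⟩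
      constructor
      · rw [← hmap, Measure.map_apply hL measurableSet_Iio]
        have h1 : ∀ᵐ ω ∂μ, ¬ L ω < 0 := by
          filter_upwards [hlim] with ω hω
          refine not_lt.2 (ge_of_tendsto hω ?_)
          filter_upwards with x
          have : 0 ≤ Real.log (x : ℝ) := Real.log_natCast_nonneg x
          positivity
        rw [ae_iff] at h1
        simp only [not_not] at h1
        exact h1
      · have h1 := hUPR κ c p δ hκ hc hp hδ Ω μ A hA L hL (by
          filter_upwards [hlim] with ω hω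
          exact (rc_iff _ _).1 hω)
        have hmeas : Measurable (fun u : ℝ => ENNReal.ofReal (u * Real.log (u / (κ + 1)) - u + (κ + 1))) := by
          apply ENNReal.measurable_ofReal.comp
          exact ((measurable_id.mul (Real.measurable_log.comp (measurable_id.div_const _))).sub measurable_id).add_const _
        rw [← hmap, lintegral_map hmeas hL]
        exact h1
    · rintro ⟨h0, h1⟩
      obtain ⟨Ω, m, μ, hμ, A, L, hA, hL, hmap, hlim⟩ := hLOX κ c p δ hκ hc hp hδ ν h0 h1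
      refine ⟨Ω, m, μ, hμ, A, L, hA, hL, hmap, ?_⟩
      filter_upwards [hlim] with ω hω
      exact (rc_iff _ _).2 hω

end Pool.Agent.Results.MP_f9960f_nt.RecordGapsLaw
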